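import Pool.Agent.Helper38_LDP.Stmts

/-! CHI: the Hilbert function through the restriction. -/

namespace Pool.Agent.LDP.H4

open Polynomial
open scoped Polynomial.Bivariate

theorem chi (re1 : Re1Stmt) (re2 : Re2Stmt) : ChiStmt := by
  intro ρ n K _ Q J t hρ hn hQJ
  -- the linear map
  let F : MvPolynomial.homogeneousSubmodule (Fin (n + 2)) K t →ₗ[K] (K[X][Y] ⧸ J) :=
    (Ideal.Quotient.mkₐ K J).toLinearMap ∘ₗ (res ρ n K).toLinearMap ∘ₗ
      (MvPolynomial.homogeneousSubmodule (Fin (n + 2)) K t).subtype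
  have hFa : ∀ h : MvPolynomial.homogeneousSubmodule (Fin (n + 2)) K t,
      F h = Ideal.Quotient.mk J (res ρ n K h.1) := fun _ => rfl
  have hker : (Q.restrictScalars K).comap
      (MvPolynomial.homogeneousSubmodule (Fin (n + 2)) K t).subtype = LinearMap.ker F := by
    ext h
    rw [LinearMap.mem_ker, hFa, Ideal.Quotient.eq_zero_iff_mem]
    exact hQJ h.1 h.2
  have hran : (V ρ K ((1 + ρ) * t) t).map (Ideal.Quotient.mkₐ K J).toLinearMap
      = LinearMap.range F := by
    ext x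
    rw [Submodule.mem_map, LinearMap.mem_range]
    constructor
    · rintro ⟨g, hg, rfl⟩
      obtain ⟨h, hh, hr⟩ := re2 ρ n t K g hρ hn hg
      exact ⟨⟨h, hh⟩, by rw [hFa]; rw [hr]; rfl⟩
    · rintro ⟨h, rfl⟩
      exact ⟨res ρ n K h.1, re1 ρ n t K h.1 hρ h.2, rfl⟩
  unfold hilb hJ
  rw [hker, hran]
  exact LinearEquiv.finrank_eq F.quotKerEquivRange

end Pool.Agent.LDP.H4
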